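import Mathlib

/-!
# Counting solutions of the quadratic Vinogradov system in six variables
-/

set_option autoImplicit false

namespace Pool.Agent.Y830.VM

/-- the vector `(x + y - z, x² + y² - z²)` -/
def vv (t : ℕ × ℕ × ℕ) : Fin 2 → ℤ :=
  ![(t.1 : ℤ) + t.2.1 - t.2.2, (t.1 : ℤ) ^ 2 + (t.2.1 : ℤ) ^ 2 - (t.2.2 : ℤ) ^ 2]

/-- triples in `[1, N]` -/
def trip (N : ℕ) : Finset (ℕ × ℕ × ℕ) := Finset.Icc 1 N ×ˢ (Finset.Icc 1 N ×ˢ Finset.Icc 1 N)

lemma card_trip (N : ℕ) : (trip N).card = N * (N * N) := by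
  unfold trip
  rw [Finset.card_product, Finset.card_product, Nat.card_Icc]
  simp

/-- `D(t) = (x - h)(y - h) = (z - y)(z - x)` -/
def DD (t : ℕ × ℕ × ℕ) : ℤ := ((t.2.2 : ℤ) - t.2.1) * ((t.2.2 : ℤ) - t.1)

lemma DD_eq {t u : ℕ × ℕ × ℕ} (h : vv t = vv u) :
    ((u.1 : ℤ) - (vv t 0)) * ((u.2.1 : ℤ) - (vv t 0)) = DD t := by
  have h0 : vv t 0 = vv u 0 := by rw [h]
  have h1 : vv t 1 = vv u 1 := by rw [h]
  have e0 : vv t 0 = (t.1 : ℤ) + t.2.1 - t.2.2 := rfl
  have f0 : vv u 0 = (u.1 : ℤ) + u.2.1 - u.2.2 := rfl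
  have e1 : vv t 1 = (t.1 : ℤ) ^ 2 + (t.2.1 : ℤ) ^ 2 - (t.2.2 : ℤ) ^ 2 := rfl
  have f1 : vv u 1 = (u.1 : ℤ) ^ 2 + (u.2.1 : ℤ) ^ 2 - (u.2.2 : ℤ) ^ 2 := rfl
  rw [e0, f0] at h0
  rw [e1, f1] at h1
  rw [e0]
  unfold DD
  have h2 : (u.2.2 : ℤ) = u.1 + u.2.1 - (t.1 + t.2.1 - t.2.2) := by linarith
  rw [h2] at h1
  nlinarith [h1]

/-- the number of triples with a given vector, nondegenerate case -/
lemma fibre_nondeg (N : ℕ) {t : ℕ × ℕ × ℕ} (hD : DD t ≠ 0) :
    ((trip N).filter (fun u => vv t = vv u)).card ≤ 2 * (DD t).natAbs.divisors.card := by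
  classical
  -- map u to u.1 - h, a divisor of D with sign
  have hcard : ((trip N).filter (fun u => vv t = vv u)).card ≤
      (((DD t).natAbs.divisors ×ˢ (Finset.univ : Finset Bool))).card := by
    apply Finset.card_le_card_of_injOn
      (fun u => (((u.1 : ℤ) - vv t 0).natAbs, decide ((0 : ℤ) ≤ (u.1 : ℤ) - vv t 0)))
    · intro u hu
      rw [Finset.mem_coe, Finset.mem_filter] at hu
      have h1 := DD_eq hu.2
      rw [Finset.mem_coe, Finset.mem_product]
      refine ⟨?_, Finset.mem_univ _⟩
      rw [Nat.mem_divisors]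
      refine ⟨?_, by simpa using hD⟩
      rw [← h1, Int.natAbs_mul]
      exact Nat.dvd_mul_right _ _
    · intro u hu w hw huw
      rw [Finset.mem_coe, Finset.mem_filter] at hu hw
      simp only [Prod.mk.injEq] at huw
      have h1 := DD_eq hu.2
      have h2 := DD_eq hw.2
      have h3 : (u.1 : ℤ) - vv t 0 = (w.1 : ℤ) - vv t 0 := by
        have ha := huw.1
        have hb : ((0 : ℤ) ≤ (u.1 : ℤ) - vv t 0) ↔ ((0 : ℤ) ≤ (w.1 : ℤ) - vv t 0) := by
          have := huw.2
          rwa [decide_eq_decide] at this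
        omega
      have h4 : (u.1 : ℤ) = w.1 := by linarith
      have h5 : (u.1 : ℤ) - vv t 0 ≠ 0 := by
        intro h
        rw [h, zero_mul] at h1
        exact hD h1.symm
      have h6 : (u.2.1 : ℤ) - vv t 0 = (w.2.1 : ℤ) - vv t 0 := by
        apply mul_left_cancel₀ h5
        rw [h1, h3, h2]
      have h7 : (u.2.1 : ℤ) = w.2.1 := by linarith
      have h8 : vv u 0 = vv w 0 := by rw [← hu.2, ← hw.2]
      have f0 : vv u 0 = (u.1 : ℤ) + u.2.1 - u.2.2 := rfl
      have g0 : vv w 0 = (w.1 : ℤ) + w.2.1 - w.2.2 := rfl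
      rw [f0, g0] at h8
      have h9 : (u.2.2 : ℤ) = w.2.2 := by linarith
      ext
      · exact_mod_cast h4
      · exact_mod_cast h7
      · exact_mod_cast h9
  rw [Finset.card_product, Finset.card_univ, Fintype.card_bool] at hcard
  omega

/-- degenerate case -/
lemma fibre_deg (N : ℕ) {t : ℕ × ℕ × ℕ} (hD : DD t = 0) :
    ((trip N).filter (fun u => vv t = vv u)).card ≤ 2 * N := by
  classical
  have hcard : ((trip N).filter (fun u => vv t = vv u)).card ≤
      ((Finset.Icc 1 N ×ˢ (Finset.univ : Finset Bool))).card := by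
    apply Finset.card_le_card_of_injOn
      (fun u => (if (u.1 : ℤ) = vv t 0 then u.2.1 else u.1, decide ((u.1 : ℤ) = vv t 0)))
    · intro u hu
      rw [Finset.mem_coe, Finset.mem_filter] at hu
      have hu1 := hu.1
      unfold trip at hu1
      rw [Finset.mem_product, Finset.mem_product] at hu1
      rw [Finset.mem_coe, Finset.mem_product]
      refine ⟨?_, Finset.mem_univ _⟩
      dsimp only
      split_ifs
      · exact hu1.2.1
      · exact hu1.1
    · intro u hu w hw huw
      rw [Finset.mem_coe, Finset.mem_filter] at hu hw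
      simp only [Prod.mk.injEq] at huw
      have h1 := DD_eq hu.2
      have h2 := DD_eq hw.2
      rw [hD] at h1 h2
      have h8 : vv u 0 = vv w 0 := by rw [← hu.2, ← hw.2]
      have f0 : vv u 0 = (u.1 : ℤ) + u.2.1 - u.2.2 := rfl
      have g0 : vv w 0 = (w.1 : ℤ) + w.2.1 - w.2.2 := rfl
      rw [f0, g0] at h8
      have hb : ((u.1 : ℤ) = vv t 0) ↔ ((w.1 : ℤ) = vv t 0) := by
        have := huw.2
        rwa [decide_eq_decide] at this
      by_cases h : (u.1 : ℤ) = vv t 0
      · have h' := hb.1 h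
        have ha := huw.1
        rw [if_pos h, if_pos h'] at ha
        have e1 : u.1 = w.1 := by
          have : (u.1 : ℤ) = w.1 := by rw [h, h']
          exact_mod_cast this
        rw [e1, ha] at h8
        have e3 : (u.2.2 : ℤ) = w.2.2 := by linarith
        ext
        · exact e1
        · exact ha
        · exact_mod_cast e3
      · have h' : ¬ (w.1 : ℤ) = vv t 0 := fun hh => h (hb.2 hh)
        have ha := huw.1
        rw [if_neg h, if_neg h'] at ha
        have e2 : (u.2.1 : ℤ) = vv t 0 := by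
          rcases mul_eq_zero.1 h1 with h3 | h3
          · exact absurd (by linarith) h
          · linarith
        have e2' : (w.2.1 : ℤ) = vv t 0 := by
          rcases mul_eq_zero.1 h2 with h3 | h3
          · exact absurd (by linarith) h'
          · linarith
        have e4 : u.2.1 = w.2.1 := by
          have : (u.2.1 : ℤ) = w.2.1 := by rw [e2, e2']
          exact_mod_cast this
        rw [ha, e4] at h8
        have e3 : (u.2.2 : ℤ) = w.2.2 := by linarith
        ext
        · exact ha
        · exact e4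
        · exact_mod_cast e3
  rw [Finset.card_product, Finset.card_univ, Fintype.card_bool, Nat.card_Icc] at hcard
  omega

/-- number of degenerate triples -/
lemma card_deg (N : ℕ) : ((trip N).filter (fun t => DD t = 0)).card ≤ 2 * (N * N) := by
  classical
  have hcard : ((trip N).filter (fun t => DD t = 0)).card ≤
      ((Finset.Icc 1 N ×ˢ Finset.Icc 1 N) ×ˢ (Finset.univ : Finset Bool)).card := by
    apply Finset.card_le_card_of_injOn (fun u => ((u.1, u.2.1), decide (u.2.2 = u.2.1)))
    · intro u hu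
      rw [Finset.mem_coe, Finset.mem_filter] at hu
      have hu1 := hu.1
      unfold trip at hu1
      rw [Finset.mem_product, Finset.mem_product] at hu1
      rw [Finset.mem_coe, Finset.mem_product, Finset.mem_product]
      exact ⟨⟨hu1.1, hu1.2.1⟩, Finset.mem_univ _⟩
    · intro u hu w hw huw
      rw [Finset.mem_coe, Finset.mem_filter] at hu hw
      simp only [Prod.mk.injEq] at huw
      obtain ⟨⟨e1, e2⟩, e3⟩ := huw
      rw [decide_eq_decide] at e3
      have h1 := hu.2
      have h2 := hw.2
      unfold DD at h1 h2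
      have e4 : u.2.2 = w.2.2 := by
        rcases mul_eq_zero.1 h1 with h3 | h3
        · have h4 : u.2.2 = u.2.1 := by
            have : (u.2.2 : ℤ) = u.2.1 := by linarith
            exact_mod_cast this
          rw [h4, e3.1 h4, e2]
        · by_cases h5 : u.2.2 = u.2.1
          · rw [h5, e3.1 h5, e2]
          · have h6 : ¬ w.2.2 = w.2.1 := fun hh => h5 (e3.2 hh)
            rcases mul_eq_zero.1 h2 with h7 | h7
            · exact absurd (by
                have : (w.2.2 : ℤ) = w.2.1 := by linarith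
                exact_mod_cast this) h6
            · have : (u.2.2 : ℤ) = w.2.2 := by
                have e1' : (u.1 : ℤ) = w.1 := by exact_mod_cast e1
                linarith
              exact_mod_cast this
      ext
      · exact e1
      · exact e2
      · exact e4
  rw [Finset.card_product, Finset.card_product, Finset.card_univ, Fintype.card_bool,
    Nat.card_Icc] at hcard
  have : N + 1 - 1 = N := by omega
  rw [this] at hcard
  omega

/-- the number of solutions -/
theorem count (N : ℕ) (T : ℝ) (hT1 : 1 ≤ T)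
    (hT : ∀ n : ℕ, 1 ≤ n → n ≤ N ^ 2 → (n.divisors.card : ℝ) ≤ T) :
    ((((trip N) ×ˢ (trip N)).filter (fun p => vv p.1 = vv p.2)).card : ℝ) ≤
      6 * T * (N : ℝ) ^ 3 := by
  classical
  have hN0 : (0 : ℝ) ≤ N := Nat.cast_nonneg _
  have h1 : (((trip N) ×ˢ (trip N)).filter (fun p => vv p.1 = vv p.2)).card =
      ∑ t ∈ trip N, ((trip N).filter (fun u => vv t = vv u)).card := by
    rw [Finset.card_filter, Finset.sum_product]
    refine Finset.sum_congr rfl fun t _ => ?_
    rw [Finset.card_filter]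
  rw [h1]
  push_cast
  have h2 : ∀ t ∈ trip N, (((trip N).filter (fun u => vv t = vv u)).card : ℝ) ≤
      2 * T + (if DD t = 0 then 2 * (N : ℝ) else 0) := by
    intro t ht
    by_cases hD : DD t = 0
    · rw [if_pos hD]
      have := fibre_deg N hD
      have h3 : (((trip N).filter (fun u => vv t = vv u)).card : ℝ) ≤ 2 * (N : ℝ) := by
        exact_mod_cast this
      linarith
    · rw [if_neg hD, add_zero]
      have h3 := fibre_nondeg N hD
      have h4 : (((trip N).filter (fun u => vv t = vv u)).card : ℝ) ≤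
          2 * ((DD t).natAbs.divisors.card : ℝ) := by exact_mod_cast h3
      have h5 : 1 ≤ (DD t).natAbs := by
        have := Int.natAbs_ne_zero.2 hD
        omega
      have h6 : (DD t).natAbs ≤ N ^ 2 := by
        unfold trip at ht
        rw [Finset.mem_product, Finset.mem_product, Finset.mem_Icc, Finset.mem_Icc,
          Finset.mem_Icc] at ht
        unfold DD
        rw [Int.natAbs_mul, sq]
        apply Nat.mul_le_mul <;> omega
      have := hT _ h5 h6
      linarith
  refine (Finset.sum_le_sum h2).trans ?_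
  rw [Finset.sum_add_distrib, Finset.sum_const, nsmul_eq_mul, card_trip, ← Finset.sum_filter,
    Finset.sum_const, nsmul_eq_mul]
  have h3 : (((trip N).filter (fun t => DD t = 0)).card : ℝ) ≤ 2 * ((N : ℝ) * N) := by
    exact_mod_cast card_deg N
  have h4 : (((trip N).filter (fun t => DD t = 0)).card : ℝ) * (2 * (N : ℝ)) ≤
      2 * ((N : ℝ) * N) * (2 * N) := mul_le_mul_of_nonneg_right h3 (by positivity)
  have h5 : 2 * ((N : ℝ) * N) * (2 * N) ≤ 4 * T * (N : ℝ) ^ 3 := by
    have : 4 * 1 * (N : ℝ) ^ 3 ≤ 4 * T * (N : ℝ) ^ 3 := by gcongr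
    nlinarith [this]
  push_cast
  nlinarith [h4, h5]

end Pool.Agent.Y830.VM
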