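import Mathlib

/-!
# Parseval for exponential sums on the unit cube
-/

set_option autoImplicit false

open MeasureTheory

namespace Pool.Agent.Y830.VM

/-- the character `α ↦ e(v · α)` -/
noncomputable def chr {k : ℕ} (v : Fin k → ℤ) (α : Fin k → ℝ) : ℂ :=
  ∏ j, Complex.exp (2 * (Real.pi : ℂ) * Complex.I * ((v j : ℂ) * (α j : ℂ)))

/-- the unit cube -/
def cube (k : ℕ) : Set (Fin k → ℝ) := Set.pi Set.univ (fun _ => Set.Ico (0 : ℝ) 1)

lemma chr_zero {k : ℕ} (α : Fin k → ℝ) : chr 0 α = 1 := by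
  unfold chr; simp

lemma chr_add {k : ℕ} (v w : Fin k → ℤ) (α : Fin k → ℝ) :
    chr (v + w) α = chr v α * chr w α := by
  unfold chr
  rw [← Finset.prod_mul_distrib]
  refine Finset.prod_congr rfl fun j _ => ?_
  rw [← Complex.exp_add]
  congr 1
  simp only [Pi.add_apply]
  push_cast
  ring

lemma chr_neg {k : ℕ} (v : Fin k → ℤ) (α : Fin k → ℝ) :
    chr (-v) α = (starRingEnd ℂ) (chr v α) := by
  unfold chr
  rw [map_prod]
  refine Finset.prod_congr rfl fun j _ => ?_
  rw [← Complex.exp_conj]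
  congr 1
  simp only [map_mul, Complex.conj_ofReal, Complex.conj_I, map_ofNat, Pi.neg_apply]
  have : (starRingEnd ℂ) ((v j : ℤ) : ℂ) = ((v j : ℤ) : ℂ) := by
    rw [← Complex.ofReal_intCast, Complex.conj_ofReal]
  rw [this]
  push_cast
  ring

lemma chr_cont {k : ℕ} (v : Fin k → ℤ) : Continuous (chr v) := by
  unfold chr
  fun_prop

lemma int1 (n : ℤ) : ∫ x in Set.Ico (0 : ℝ) 1,
    Complex.exp (2 * (Real.pi : ℂ) * Complex.I * ((n : ℂ) * (x : ℂ))) = if n = 0 then 1 else 0 := by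
  rw [integral_Ico_eq_integral_Ioo, ← integral_Ioc_eq_integral_Ioo,
    ← intervalIntegral.integral_of_le zero_le_one]
  split_ifs with h
  · subst h
    simp
  · have hc : (2 * (Real.pi : ℂ) * Complex.I * (n : ℂ)) ≠ 0 := by
      have h1 : (n : ℂ) ≠ 0 := by exact_mod_cast h
      have h2 : (Real.pi : ℂ) ≠ 0 := by exact_mod_cast Real.pi_ne_zero
      have h3 : Complex.I ≠ 0 := Complex.I_ne_zero
      exact mul_ne_zero (mul_ne_zero (mul_ne_zero two_ne_zero h2) h3) h1
    have h1 : ∀ x : ℝ, Complex.exp (2 * (Real.pi : ℂ) * Complex.I * ((n : ℂ) * (x : ℂ))) =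
        Complex.exp ((2 * (Real.pi : ℂ) * Complex.I * (n : ℂ)) * (x : ℂ)) := by
      intro x; congr 1; ring
    simp_rw [h1]
    rw [integral_exp_mul_complex hc]
    have h2 : Complex.exp ((2 * (Real.pi : ℂ) * Complex.I * (n : ℂ)) * ((1 : ℝ) : ℂ)) = 1 := by
      rw [Complex.exp_eq_one_iff]
      exact ⟨n, by push_cast; ring⟩
    rw [h2]
    simp

lemma volume_cube (k : ℕ) : volume (cube k) = 1 := by
  unfold cube
  rw [Real.volume_pi_Ico]
  simp

lemma int_chr {k : ℕ} (v : Fin k → ℤ) : ∫ α in cube k, chr v α = if v = 0 then 1 else 0 := by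
  unfold cube chr
  rw [volume_pi, Measure.restrict_pi_pi]
  rw [integral_fintype_prod_eq_prod (f := fun (j : Fin k) (x : ℝ) =>
    Complex.exp (2 * (Real.pi : ℂ) * Complex.I * ((v j : ℂ) * (x : ℂ))))]
  simp_rw [int1]
  rw [Finset.prod_ite_zero]
  congr 1
  · simp [funext_iff]
  · simp

lemma integrable_cube {k : ℕ} {E : Type*} [NormedAddCommGroup E] {f : (Fin k → ℝ) → E}
    (hf : Continuous f) : IntegrableOn f (cube k) := by
  have hK : IsCompact (Set.pi Set.univ fun _ : Fin k => Set.Icc (0 : ℝ) 1) :=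
    isCompact_univ_pi fun j => isCompact_Icc
  refine (hf.continuousOn.integrableOn_compact hK).mono_set ?_
  exact Set.pi_mono fun j _ => Set.Ico_subset_Icc_self

/-- Parseval: the mean square of an exponential sum is the number of coincidences. -/
theorem parseval {k : ℕ} {ι : Type*} [DecidableEq ι] (s : Finset ι) (v : ι → (Fin k → ℤ)) :
    ∫ α in cube k, ‖∑ i ∈ s, chr (v i) α‖ ^ 2 =
      ((s ×ˢ s).filter (fun p => v p.1 = v p.2)).card := by
  have h0 : ∀ α : Fin k → ℝ, ((‖∑ i ∈ s, chr (v i) α‖ ^ 2 : ℝ) : ℂ) =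
      ∑ p ∈ s ×ˢ s, chr (v p.1 + -(v p.2)) α := by
    intro α
    rw [← Complex.normSq_eq_norm_sq, ← Complex.mul_conj, map_sum, Finset.sum_mul_sum,
      Finset.sum_product]
    refine Finset.sum_congr rfl fun i _ => Finset.sum_congr rfl fun j _ => ?_
    rw [chr_add, chr_neg]
  have h1 : ((∫ α in cube k, ‖∑ i ∈ s, chr (v i) α‖ ^ 2 : ℝ) : ℂ) =
      ((((s ×ˢ s).filter (fun p => v p.1 = v p.2)).card : ℝ) : ℂ) := by
    rw [← integral_complex_ofReal]
    simp_rw [h0]
    rw [integral_finsetSum]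
    · simp_rw [int_chr]
      rw [Finset.card_filter]
      push_cast
      refine Finset.sum_congr rfl fun p _ => ?_
      by_cases h : v p.1 = v p.2
      · rw [if_pos h, if_pos (by rw [h]; simp)]
        simp
      · rw [if_neg h, if_neg (by rw [← sub_eq_add_neg, sub_eq_zero]; exact h)]
        simp
    · intro p _
      exact integrable_cube (chr_cont _)
  exact_mod_cast h1

end Pool.Agent.Y830.VM
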